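import Pool.Agent.H44.Loeb4

open Filter Topology MeasureTheory Pool.Agent.H44.Loeb
open scoped BoundedContinuousFunction

theorem Pool.Agent.Results.MP_5090e2_pr.Closed.result
    (S : ℕ → Type) [∀ n, Finite (S n)] [∀ n, MeasurableSpace (S n)]
    [∀ n, DiscreteMeasurableSpace (S n)] (M : ∀ n, MarkovProc (S n))
    (F : ∀ n, S n → Prof) (hF : ∀ n x t, (F n x).1 t = (M n).dist x t)
    (k : ℕ → ℕ) (_hk : StrictMono k) (Λ : Measure Prof) [IsProbabilityMeasure Λ]
    (h : ∀ φ : Prof →ᵇ ℝ,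
      Tendsto (fun j => ∫ x, φ (F (k j) x) ∂(M (k j)).π) atTop (𝓝 (∫ f, φ f ∂Λ))) :
    ∃ (E : Type) (_ : MeasurableSpace E) (N : MarkovProc E) (d : E → Prof),
      (∀ x t, (d x).1 t = N.dist x t) ∧ Measurable d ∧ N.π.map d = Λ :=
  main (fun j => M (k j)) (fun j => F (k j)) (fun _ => hF _) (fun _ => Measurable.of_discrete)
    (fun _ _ => Measurable.of_discrete) Λ h
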